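import Mathlib
import Pool.Agent.N675.A3.Stm

/-!
# Double Cauchy-Schwarz and arithmetic: major arcs from two systems of frequencies
-/

set_option autoImplicit false

namespace Pool.Agent.N123.A3

open Finset Pool.Agent.N675 Pool.Agent.N675.A3

/-- geometric sum -/
noncomputable def Gs (K : ℕ) (β : ℝ) : ℂ := ∑ k ∈ range K, eR (k * β)

lemma norm_Gs_le (K : ℕ) (β : ℝ) : ‖Gs K β‖ ≤ K := by
  unfold Gs
  refine (norm_sum_le _ _).trans ?_
  simp [norm_eR]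

lemma sum_shift (K : ℕ) (β : ℝ) :
    ∑ y ∈ Finset.Icc (1 : ℤ) K, eR (β * y) = eR β * Gs K β := by
  induction K with
  | zero => simp [Gs]
  | succ M ih =>
    have h4 : Finset.Icc (1 : ℤ) ((M + 1 : ℕ) : ℤ)
        = insert ((M : ℤ) + 1) (Finset.Icc (1 : ℤ) M) := by
      ext z
      simp only [Finset.mem_Icc, Finset.mem_insert]
      push_cast
      omega
    rw [h4, Finset.sum_insert (by simp), ih, Gs, Gs, Finset.sum_range_succ, mul_add, ← eR_add,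
      add_comm]
    congr 2
    push_cast
    ring

lemma near_int {K : ℕ} {β c : ℝ} (hc : 0 < c) (hK : 0 < K) (h : c * K ≤ ‖Gs K β‖) :
    ∃ j : ℤ, |β - j| ≤ 1 / (2 * c * K) := by
  refine ⟨round β, round_le_of_sum β K c hc ?_ hK⟩
  rw [sum_shift, norm_mul, norm_eR, one_mul]
  exact h

lemma cs_dual {ι κ : Type*} (I : Finset ι) (A : Finset κ) (w : ι → ℂ) (hw : ∀ i ∈ I, ‖w i‖ ≤ 1)
    (u : κ → ι → ℂ) :
    ‖∑ i ∈ I, w i * ∑ p ∈ A, u p i‖ ^ 2 ≤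
      I.card * ‖∑ p ∈ A, ∑ p' ∈ A, ∑ i ∈ I, u p i * (starRingEnd ℂ) (u p' i)‖ := by
  have h1 : ‖∑ i ∈ I, w i * ∑ p ∈ A, u p i‖ ≤ ∑ i ∈ I, ‖∑ p ∈ A, u p i‖ := by
    refine (norm_sum_le _ _).trans (Finset.sum_le_sum fun i hi => ?_)
    rw [norm_mul]
    exact mul_le_of_le_one_left (norm_nonneg _) (hw i hi)
  have h2 : (∑ i ∈ I, ‖∑ p ∈ A, u p i‖) ^ 2 ≤ I.card * ∑ i ∈ I, ‖∑ p ∈ A, u p i‖ ^ 2 :=
    sq_sum_le_card_mul_sum_sq
  have h3 : ((∑ i ∈ I, ‖∑ p ∈ A, u p i‖ ^ 2 : ℝ) : ℂ) =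
      ∑ p ∈ A, ∑ p' ∈ A, ∑ i ∈ I, u p i * (starRingEnd ℂ) (u p' i) := by
    push_cast
    have h4 : ∀ i, ((‖∑ p ∈ A, u p i‖ : ℝ) : ℂ) ^ 2 =
        ∑ p ∈ A, ∑ p' ∈ A, u p i * (starRingEnd ℂ) (u p' i) := by
      intro i
      rw [← Complex.mul_conj', map_sum, Finset.sum_mul_sum]
    simp_rw [h4]
    rw [Finset.sum_comm]
    refine Finset.sum_congr rfl fun p _ => ?_
    rw [Finset.sum_comm]
  have h5 : ∑ i ∈ I, ‖∑ p ∈ A, u p i‖ ^ 2 =
      ‖∑ p ∈ A, ∑ p' ∈ A, ∑ i ∈ I, u p i * (starRingEnd ℂ) (u p' i)‖ := by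
    rw [← h3, Complex.norm_real, Real.norm_eq_abs,
      abs_of_nonneg (Finset.sum_nonneg fun i _ => sq_nonneg _)]
  rw [← h5]
  exact (pow_le_pow_left₀ (norm_nonneg _) h1 2).trans h2

lemma start {κ : Type*} {x K : ℕ} (hx : 0 < x) (hK : 0 < K) (A : Finset κ) (w : ℕ × ℕ → ℂ)
    (hw : ∀ i, ‖w i‖ ≤ 1) (v : κ → ℕ × ℕ → ℂ) (θ : κ → ℝ) (z : κ → ℕ → ℂ)
    (hz : ∀ p n, z p n = (∑ k ∈ range K, w (n, k) * v p (n, k) * eR (k * θ p)) / K)
    {δ : ℝ} (hδ : 0 ≤ δ) (h : ∀ p ∈ A, δ ≤ (∑ n ∈ Icc 1 x, ‖z p n‖ ^ 2) / x) :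
    δ ^ 2 * (A.card : ℝ) ^ 2 * (x * K) ≤
      ‖∑ p ∈ A, ∑ p' ∈ A, ∑ i ∈ Icc 1 x ×ˢ range K,
        (v p i * eR (i.2 * θ p) * (starRingEnd ℂ) (z p i.1)) *
          (starRingEnd ℂ) (v p' i * eR (i.2 * θ p') * (starRingEnd ℂ) (z p' i.1))‖ := by
  have hx0 : (0 : ℝ) < x := by exact_mod_cast hx
  have hK0 : (0 : ℝ) < K := by exact_mod_cast hK
  have hKc : (K : ℂ) ≠ 0 := by exact_mod_cast hK.ne'
  have h1 := cs_dual (Icc 1 x ×ˢ range K) A w (fun i _ => hw i)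
    (fun p i => v p i * eR (i.2 * θ p) * (starRingEnd ℂ) (z p i.1))
  have h2 : ∑ i ∈ Icc 1 x ×ˢ range K,
      w i * ∑ p ∈ A, v p i * eR (i.2 * θ p) * (starRingEnd ℂ) (z p i.1)
      = ((∑ p ∈ A, K * ∑ n ∈ Icc 1 x, ‖z p n‖ ^ 2 : ℝ) : ℂ) := by
    push_cast
    simp_rw [Finset.mul_sum]
    rw [Finset.sum_comm]
    refine Finset.sum_congr rfl fun p _ => ?_
    rw [Finset.sum_product]
    refine Finset.sum_congr rfl fun n _ => ?_
    have h3 : (K : ℂ) * z p n = ∑ k ∈ range K, w (n, k) * v p (n, k) * eR (k * θ p) := by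
      rw [hz, mul_div_assoc', mul_div_cancel_left₀ _ hKc]
    rw [← Complex.mul_conj', ← mul_assoc, h3, Finset.sum_mul]
    refine Finset.sum_congr rfl fun k _ => by ring
  have h3 : ((Icc 1 x ×ˢ range K).card : ℝ) = x * K := by
    rw [Finset.card_product, Nat.card_Icc, card_range]
    push_cast
    simp
  rw [h2, Complex.norm_real, Real.norm_eq_abs, sq_abs, h3] at h1
  have h4 : δ * x * K * A.card ≤ ∑ p ∈ A, K * ∑ n ∈ Icc 1 x, ‖z p n‖ ^ 2 := by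
    have h5 : ∀ p ∈ A, δ * x * K ≤ K * ∑ n ∈ Icc 1 x, ‖z p n‖ ^ 2 := by
      intro p hp
      have h6 := h p hp
      rw [le_div_iff₀ hx0] at h6
      rw [mul_comm (K : ℝ)]
      exact mul_le_mul_of_nonneg_right h6 hK0.le
    calc δ * x * K * A.card = ∑ p ∈ A, δ * x * K := by
          rw [sum_const, nsmul_eq_mul, mul_comm]
      _ ≤ _ := sum_le_sum h5
  have h5 : (δ * x * K * A.card) ^ 2 ≤ (∑ p ∈ A, K * ∑ n ∈ Icc 1 x, ‖z p n‖ ^ 2) ^ 2 :=
    pow_le_pow_left₀ (by positivity) h4 2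
  have h6 := h5.trans h1
  have h7 : (x * K : ℝ) * (δ ^ 2 * (A.card : ℝ) ^ 2 * (x * K)) ≤
      (x * K : ℝ) * ‖∑ p ∈ A, ∑ p' ∈ A, ∑ i ∈ Icc 1 x ×ˢ range K,
        (v p i * eR (i.2 * θ p) * (starRingEnd ℂ) (z p i.1)) *
          (starRingEnd ℂ) (v p' i * eR (i.2 * θ p') * (starRingEnd ℂ) (z p' i.1))‖ := by
    refine le_trans (le_of_eq ?_) h6
    ring
  exact le_of_mul_le_mul_left h7 (by positivity)

lemma norm_sum_factor {x K : ℕ} (c : ℕ → ℂ) (hc : ∀ n, ‖c n‖ ≤ 1) (β : ℝ) :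
    ‖∑ i ∈ Icc 1 x ×ˢ range K, c i.1 * eR (i.2 * β)‖ ≤ x * ‖Gs K β‖ := by
  rw [Finset.sum_product]
  have h1 : ∑ n ∈ Icc 1 x, ∑ k ∈ range K, c n * eR (k * β) = (∑ n ∈ Icc 1 x, c n) * Gs K β := by
    rw [Gs, Finset.sum_mul_sum]
  simp only
  rw [h1, norm_mul]
  refine mul_le_mul_of_nonneg_right ?_ (norm_nonneg _)
  refine (norm_sum_le _ _).trans ?_
  refine (Finset.sum_le_sum fun n _ => hc n).trans ?_
  simp

lemma norm_avg_le {K : ℕ} (hK : 0 < K) (g : ℕ → ℂ) (hg : ∀ k, ‖g k‖ ≤ 1) :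
    ‖(∑ k ∈ range K, g k) / K‖ ≤ 1 := by
  have hK0 : (0 : ℝ) < K := by exact_mod_cast hK
  rw [norm_div, Complex.norm_natCast, div_le_one hK0]
  refine (norm_sum_le _ _).trans ?_
  refine (Finset.sum_le_sum fun n _ => hg n).trans ?_
  simp

lemma norm_mul_le_one {a b : ℂ} (ha : ‖a‖ ≤ 1) (hb : ‖b‖ ≤ 1) : ‖a * b‖ ≤ 1 := by
  rw [norm_mul]
  exact mul_le_one₀ ha (norm_nonneg _) hb

lemma norm_f {f : ℕ → ℝ} (hf : ∀ n, |f n| ≤ 1) (n : ℕ) : ‖((f n : ℝ) : ℂ)‖ ≤ 1 := by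
  rw [Complex.norm_real]
  exact hf n

lemma norm_conj_le {a : ℂ} (ha : ‖a‖ ≤ 1) : ‖(starRingEnd ℂ) a‖ ≤ 1 := by
  rw [RCLike.norm_conj]
  exact ha

lemma core1 {f : ℕ → ℝ} (hf : ∀ n, |f n| ≤ 1) {b y K m : ℕ} (hy : 0 < y) (hK : 0 < K)
    (A : Finset ℕ) (β : ℕ → ℝ) {δ : ℝ} (hδ : 0 ≤ δ) (h : ∀ p ∈ A, δ ≤ SS f b y K m (β p)) :
    δ ^ 2 * (A.card : ℝ) ^ 2 * K ≤ ∑ p ∈ A, ∑ p' ∈ A, ‖Gs K (β p - β p')‖ := by
  have hy0 : (0 : ℝ) < y := by exact_mod_cast hy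
  have hK0 : (0 : ℝ) < K := by exact_mod_cast hK
  set w : ℕ × ℕ → ℂ := fun i => ((f (i.1 + b * i.2) * f (i.1 + b * i.2 + m) : ℝ) : ℂ) with hw
  have hw1 : ∀ i, ‖w i‖ ≤ 1 := by
    intro i
    simp only [hw]
    push_cast
    exact norm_mul_le_one (norm_f hf _) (norm_f hf _)
  set z : ℕ → ℕ → ℂ := fun p n => (∑ k ∈ range K, w (n, k) * 1 * eR (k * β p)) / K with hz
  have hz1 : ∀ p n, ‖z p n‖ ≤ 1 := fun p n => norm_avg_le hK _ fun k =>
    norm_mul_le_one (norm_mul_le_one (hw1 _) (by simp)) (norm_eR _).le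
  have h1 := start hy hK A w hw1 (fun _ _ => 1) β z (fun p n => rfl) hδ (by
    intro p hp
    have h2 := h p hp
    unfold SS at h2
    simp only [hz, mul_one, hw]
    exact h2)
  have h2 : ∀ p p', ‖∑ i ∈ Icc 1 y ×ˢ range K,
        ((fun _ _ => 1 : ℕ → ℕ × ℕ → ℂ) p i * eR (i.2 * β p) * (starRingEnd ℂ) (z p i.1)) *
          (starRingEnd ℂ) ((fun _ _ => 1 : ℕ → ℕ × ℕ → ℂ) p' i * eR (i.2 * β p') *
            (starRingEnd ℂ) (z p' i.1))‖ ≤ y * ‖Gs K (β p - β p')‖ := by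
    intro p p'
    refine le_trans (le_of_eq ?_) (norm_sum_factor (fun n => (starRingEnd ℂ) (z p n) * z p' n)
      (fun n => norm_mul_le_one (norm_conj_le (hz1 _ _)) (hz1 _ _)) (β p - β p'))
    congr 1
    refine Finset.sum_congr rfl fun i _ => ?_
    have h3 : eR (i.2 * (β p - β p')) = eR (i.2 * β p) * (starRingEnd ℂ) (eR (i.2 * β p')) := by
      rw [← eR_neg, ← eR_add]
      congr 1
      ring
    rw [h3]
    simp only [map_mul, Complex.conj_conj, map_one]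
    ring
  have h3 := h1.trans ((norm_sum_le _ _).trans (Finset.sum_le_sum fun p _ =>
    (norm_sum_le _ _).trans (Finset.sum_le_sum fun p' _ => h2 p p')))
  simp_rw [← Finset.mul_sum] at h3
  have h4 : (y : ℝ) * (δ ^ 2 * (A.card : ℝ) ^ 2 * K) ≤
      y * ∑ p ∈ A, ∑ p' ∈ A, ‖Gs K (β p - β p')‖ := le_trans (le_of_eq (by ring)) h3
  exact le_of_mul_le_mul_left h4 hy0

/-- reindexing the pairs `p < p'` -/
lemma reindex {M : Type*} [AddCommMonoid M] {P : ℕ} (A : Finset ℕ)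
    (hA : ∀ p ∈ A, P ≤ p ∧ p < 2 * P) (T : ℕ → ℕ → M) :
    ∑ p ∈ A, ∑ p' ∈ A with p < p', T p p' =
      ∑ r ∈ Ico 1 P, ∑ p ∈ A with p + r ∈ A, T p (p + r) := by
  have h1 : ∀ p ∈ A, ∑ p' ∈ A with p < p', T p p' =
      ∑ r ∈ Ico 1 P, if p + r ∈ A then T p (p + r) else 0 := by
    intro p hp
    rw [← Finset.sum_filter]
    refine Finset.sum_nbij' (fun p' => p' - p) (fun r => p + r) ?_ ?_ ?_ ?_ ?_
    · intro p' hp'
      simp only [mem_filter, mem_Ico] at hp' ⊢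
      have h2 := hA p hp
      have h3 := hA p' hp'.1
      refine ⟨⟨by omega, by omega⟩, ?_⟩
      rw [Nat.add_sub_cancel' hp'.2.le]
      exact hp'.1
    · intro r hr
      simp only [mem_filter, mem_Ico] at hr ⊢
      exact ⟨hr.2, by omega⟩
    · intro p' hp'
      simp only [mem_filter] at hp'
      show p + (p' - p) = p'
      omega
    · intro r hr
      show p + r - p = r
      omega
    · intro p' hp'
      simp only [mem_filter] at hp'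
      show T p p' = T p (p + (p' - p))
      rw [Nat.add_sub_cancel' hp'.2.le]
  rw [Finset.sum_congr rfl h1, Finset.sum_comm]
  refine Finset.sum_congr rfl fun r _ => ?_
  rw [Finset.sum_filter]

lemma herm (A : Finset ℕ) (T : ℕ → ℕ → ℂ) (hT : ∀ p p', T p' p = (starRingEnd ℂ) (T p p')) :
    ‖∑ p ∈ A, ∑ p' ∈ A, T p p'‖ ≤
      ∑ p ∈ A, ‖T p p‖ + 2 * ‖∑ p ∈ A, ∑ p' ∈ A with p < p', T p p'‖ := by
  have h1 : ∑ p ∈ A, ∑ p' ∈ A, T p p' = ∑ p ∈ A, T p p +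
      (∑ p ∈ A, ∑ p' ∈ A with p < p', T p p' +
        (starRingEnd ℂ) (∑ p ∈ A, ∑ p' ∈ A with p < p', T p p')) := by
    have h2 : (starRingEnd ℂ) (∑ p ∈ A, ∑ p' ∈ A with p < p', T p p') =
        ∑ p ∈ A, ∑ p' ∈ A with p' < p, T p p' := by
      simp_rw [map_sum, Finset.sum_filter]
      rw [Finset.sum_comm]
      refine Finset.sum_congr rfl fun p _ => Finset.sum_congr rfl fun p' _ => ?_
      rw [hT p p', Complex.conj_conj]
    rw [h2, ← Finset.sum_add_distrib, ← Finset.sum_add_distrib]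
    refine Finset.sum_congr rfl fun p hp => ?_
    simp_rw [Finset.sum_filter]
    have h3 : T p p = ∑ p' ∈ A, if p = p' then T p p' else 0 := by
      rw [Finset.sum_ite_eq]
      simp [hp]
    rw [h3, ← Finset.sum_add_distrib, ← Finset.sum_add_distrib]
    refine Finset.sum_congr rfl fun p' _ => ?_
    rcases lt_trichotomy p p' with h | h | h
    · simp [h, h.ne, h.le.not_gt]
    · simp [h]
    · simp [h, h.ne', h.le.not_gt]
  rw [h1]
  refine (norm_add_le _ _).trans (add_le_add (norm_sum_le _ _) ?_)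
  refine (norm_add_le _ _).trans ?_
  rw [RCLike.norm_conj]
  linarith

lemma shift_err (x s : ℕ) (g : ℕ → ℂ) (hg : ∀ n, ‖g n‖ ≤ 1) :
    ‖∑ n ∈ Icc 1 x, g (n + s) - ∑ n ∈ Icc 1 x, g n‖ ≤ 2 * s := by
  induction s with
  | zero => simp
  | succ s ih =>
    have h1 : ∀ y : ℕ, ∑ n ∈ Icc 1 y, g (n + (s + 1)) =
        ∑ n ∈ Icc 1 y, g (n + s) + (g (y + 1 + s) - g (1 + s)) := by
      intro y
      induction y with
      | zero => simp
      | succ y ihy =>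
        rw [Finset.sum_Icc_succ_top (by omega), Finset.sum_Icc_succ_top (by omega), ihy]
        have h2 : y + 1 + (s + 1) = y + 1 + 1 + s := by ring
        rw [h2]
        ring
    have h3 : ∑ n ∈ Icc 1 x, g (n + (s + 1)) - ∑ n ∈ Icc 1 x, g n =
        (∑ n ∈ Icc 1 x, g (n + s) - ∑ n ∈ Icc 1 x, g n) + (g (x + 1 + s) - g (1 + s)) := by
      rw [h1]
      ring
    rw [h3]
    refine (norm_add_le _ _).trans ?_
    have h4 : ‖g (x + 1 + s) - g (1 + s)‖ ≤ 2 := by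
      refine (norm_sub_le _ _).trans ?_
      linarith [hg (x + 1 + s), hg (1 + s)]
    push_cast
    linarith

lemma prod3 {a b c B : ℝ} (ha : 0 ≤ a) (hb : 0 ≤ b) (hc : 0 ≤ c) (haB : a ≤ B) (hbB : b ≤ B)
    (hcB : c ≤ B) : a * b * c ≤ B ^ 3 := by
  have hB : 0 ≤ B := ha.trans haB
  calc a * b * c ≤ (B * B) * B :=
        mul_le_mul (mul_le_mul haB hbB hb hB) hcB hc (mul_nonneg hB hB)
    _ = B ^ 3 := by ring

lemma core2 {f : ℕ → ℝ} (hf : ∀ n, |f n| ≤ 1) {b x K m P : ℕ} (hx : 0 < x) (hK : 0 < K)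
    (hP : 0 < P) (A : Finset ℕ) (hA : ∀ p ∈ A, P ≤ p ∧ p < 2 * P) (hne : A.Nonempty) (θ : ℕ → ℝ)
    {δ : ℝ} (hδ : 0 < δ) (hδ1 : δ ≤ 1)
    (h : ∀ p ∈ A, δ ≤ SS f b x K (p * m) (θ p))
    (hm : 32 * (P : ℝ) ^ 2 * m ≤ δ ^ 2 * x)
    (ha : 32 * (P : ℝ) ≤ δ ^ 4 * (A.card : ℝ) ^ 2) :
    ∃ r p p' : ℕ, 0 < r ∧ p ≠ p' ∧ p ∈ A ∧ p + r ∈ A ∧ p' ∈ A ∧ p' + r ∈ A ∧
      δ ^ 4 / (64 * (P : ℝ) ^ 4) * K ≤
        ‖Gs K ((θ p - θ (p + r)) - (θ p' - θ (p' + r)))‖ := by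
  have hx0 : (0 : ℝ) < x := by exact_mod_cast hx
  have hK0 : (0 : ℝ) < K := by exact_mod_cast hK
  have hP0 : (0 : ℝ) < P := by exact_mod_cast hP
  have hP1 : (1 : ℝ) ≤ P := by exact_mod_cast hP
  obtain ⟨a, haa⟩ : ∃ a : ℝ, a = (A.card : ℝ) := ⟨_, rfl⟩
  rw [← haa] at ha
  have ha1 : 1 ≤ a := by
    have h1 := Finset.card_pos.mpr hne
    rw [haa]
    exact_mod_cast h1
  have ha0 : 0 < a := lt_of_lt_of_le one_pos ha1
  have haP : a ≤ P := by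
    have h1 : A ⊆ Ico P (2 * P) := fun p hp => by
      rw [mem_Ico]
      exact hA p hp
    have h2 := Finset.card_le_card h1
    rw [Nat.card_Ico] at h2
    have h3 : 2 * P - P = P := by omega
    rw [h3] at h2
    rw [haa]
    exact_mod_cast h2
  set w : ℕ × ℕ → ℂ := fun i => ((f (i.1 + b * i.2) : ℝ) : ℂ) with hw
  have hw1 : ∀ i, ‖w i‖ ≤ 1 := fun i => norm_f hf _
  set v : ℕ → ℕ × ℕ → ℂ := fun p i => ((f (i.1 + b * i.2 + p * m) : ℝ) : ℂ) with hv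
  have hv1 : ∀ p i, ‖v p i‖ ≤ 1 := fun p i => norm_f hf _
  set z : ℕ → ℕ → ℂ := fun p n => (∑ k ∈ range K, w (n, k) * v p (n, k) * eR (k * θ p)) / K
    with hz
  have hz1 : ∀ p n, ‖z p n‖ ≤ 1 := fun p n => norm_avg_le hK _ fun k =>
    norm_mul_le_one (norm_mul_le_one (hw1 _) (hv1 _ _)) (norm_eR _).le
  have h1 := start hx hK A w hw1 v θ z (fun p n => rfl) hδ.le (by
    intro p hp
    have h2 := h p hp
    unfold SS at h2
    simp only [hz, hw, hv]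
    push_cast at h2 ⊢
    exact h2)
  set T : ℕ → ℕ → ℂ := fun p p' => ∑ i ∈ Icc 1 x ×ˢ range K,
        (v p i * eR (i.2 * θ p) * (starRingEnd ℂ) (z p i.1)) *
          (starRingEnd ℂ) (v p' i * eR (i.2 * θ p') * (starRingEnd ℂ) (z p' i.1)) with hTd
  have hu1 : ∀ p (i : ℕ × ℕ), ‖v p i * eR (i.2 * θ p) * (starRingEnd ℂ) (z p i.1)‖ ≤ 1 :=
    fun p i => norm_mul_le_one (norm_mul_le_one (hv1 _ _) (norm_eR _).le) (norm_conj_le (hz1 _ _))
  have hcard : ((Icc 1 x ×ˢ range K).card : ℝ) = x * K := by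
    rw [Finset.card_product, Nat.card_Icc, card_range]
    push_cast
    simp
  have hT1 : ∀ p p', ‖T p p'‖ ≤ x * K := by
    intro p p'
    simp only [hTd]
    refine (norm_sum_le _ _).trans ?_
    refine (Finset.sum_le_sum fun i _ => norm_mul_le_one (hu1 p i)
      (norm_conj_le (hu1 p' i))).trans ?_
    rw [Finset.sum_const, nsmul_eq_mul, mul_one, hcard]
  have hT2 : ∀ p p', T p' p = (starRingEnd ℂ) (T p p') := by
    intro p p'
    simp only [hTd]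
    rw [map_sum]
    refine Finset.sum_congr rfl fun i _ => ?_
    rw [map_mul (starRingEnd ℂ) (v p i * eR (i.2 * θ p) * (starRingEnd ℂ) (z p i.1)),
      Complex.conj_conj]
    ring
  rw [← haa] at h1
  have h2 : δ ^ 2 * a ^ 2 * (x * K) ≤
      a * (x * K) + 2 * ‖∑ p ∈ A, ∑ p' ∈ A with p < p', T p p'‖ := by
    refine (h1.trans (herm A T hT2)).trans ?_
    refine add_le_add ?_ le_rfl
    refine (Finset.sum_le_sum fun p _ => hT1 p p).trans ?_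
    rw [Finset.sum_const, nsmul_eq_mul, ← haa]
  rw [reindex A hA T] at h2
  -- the shifted sums
  set C : ℕ → ℕ → ℕ → ℂ := fun r p n =>
    (starRingEnd ℂ) (z p (n - p * m)) * z (p + r) (n - p * m) with hC
  have hC1 : ∀ r p n, ‖C r p n‖ ≤ 1 := fun r p n =>
    norm_mul_le_one (norm_conj_le (hz1 _ _)) (hz1 _ _)
  set W : ℕ → ℕ × ℕ → ℂ := fun r i =>
    ((f (i.1 + b * i.2) : ℝ) : ℂ) * ((f (i.1 + b * i.2 + r * m) : ℝ) : ℂ) with hW
  have hW1 : ∀ r i, ‖W r i‖ ≤ 1 := fun r i => norm_mul_le_one (norm_f hf _) (norm_f hf _)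
  set α : ℕ → ℕ → ℝ := fun r p => θ p - θ (p + r) with hα
  have h3 : ∀ r p, ‖T p (p + r) - ∑ i ∈ Icc 1 x ×ˢ range K,
      W r i * (C r p i.1 * eR (i.2 * α r p))‖ ≤ 2 * (p * m) * K := by
    intro r p
    have h4 : T p (p + r) - ∑ i ∈ Icc 1 x ×ˢ range K, W r i * (C r p i.1 * eR (i.2 * α r p)) =
        ∑ k ∈ range K, (∑ n ∈ Icc 1 x,
          (fun n => W r (n, k) * (C r p n * eR (k * α r p))) (n + p * m) -
          ∑ n ∈ Icc 1 x, (fun n => W r (n, k) * (C r p n * eR (k * α r p))) n) := by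
      rw [Finset.sum_sub_distrib]
      simp only [hTd]
      rw [Finset.sum_product_right, Finset.sum_product_right]
      congr 1
      refine Finset.sum_congr rfl fun k _ => Finset.sum_congr rfl fun n _ => ?_
      simp only [hW, hC, hv, hα]
      have h5 : eR (k * (θ p - θ (p + r))) = eR (k * θ p) * (starRingEnd ℂ) (eR (k * θ (p + r))) := by
        rw [← eR_neg, ← eR_add]
        congr 1
        ring
      have h6 : n + p * m + b * k = n + b * k + p * m := by ring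
      have h7 : n + b * k + p * m + r * m = n + b * k + (p + r) * m := by ring
      rw [h5, h6, h7, Nat.add_sub_cancel]
      simp only [map_mul, Complex.conj_conj, Complex.conj_ofReal]
      ring
    rw [h4]
    refine (norm_sum_le _ _).trans ?_
    refine (Finset.sum_le_sum fun k _ => shift_err x (p * m)
      (fun n => W r (n, k) * (C r p n * eR (k * α r p))) fun n =>
        norm_mul_le_one (hW1 _ _) (norm_mul_le_one (hC1 _ _ _) (norm_eR _).le)).trans ?_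
    rw [Finset.sum_const, nsmul_eq_mul, card_range]
    push_cast
    linarith
  set S : ℕ → ℂ := fun r => ∑ i ∈ Icc 1 x ×ˢ range K,
    W r i * ∑ p ∈ A with p + r ∈ A, C r p i.1 * eR (i.2 * α r p) with hS
  have h4 : ‖∑ r ∈ Ico 1 P, ∑ p ∈ A with p + r ∈ A, T p (p + r)‖ ≤
      4 * P ^ 2 * a * m * K + ∑ r ∈ Ico 1 P, ‖S r‖ := by
    have h5 : ∀ r ∈ Ico 1 P, ‖∑ p ∈ A with p + r ∈ A, T p (p + r)‖ ≤ a * (4 * P * m * K) + ‖S r‖ := by
      intro r _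
      have h6 : ∑ p ∈ A with p + r ∈ A, T p (p + r) =
          ∑ p ∈ A with p + r ∈ A, (T p (p + r) - ∑ i ∈ Icc 1 x ×ˢ range K,
            W r i * (C r p i.1 * eR (i.2 * α r p))) + S r := by
        rw [Finset.sum_sub_distrib]
        simp only [hS]
        simp_rw [Finset.mul_sum]
        rw [Finset.sum_comm (s := Icc 1 x ×ˢ range K)]
        ring
      rw [h6]
      refine (norm_add_le _ _).trans (add_le_add ?_ le_rfl)
      refine (norm_sum_le _ _).trans ?_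
      have h7 : ∀ p ∈ A.filter (fun p => p + r ∈ A), ‖T p (p + r) - ∑ i ∈ Icc 1 x ×ˢ range K,
            W r i * (C r p i.1 * eR (i.2 * α r p))‖ ≤ 4 * P * m * K := by
        intro p hp
        refine (h3 r p).trans ?_
        have h8 : (p : ℝ) ≤ 2 * P := by
          have := (hA p (Finset.mem_filter.mp hp).1).2.le
          exact_mod_cast this
        have h9 : (p : ℝ) * m ≤ 2 * P * m := mul_le_mul_of_nonneg_right h8 (by positivity)
        have h10 : 2 * ((p : ℝ) * m) ≤ 4 * P * m := by linarith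
        exact mul_le_mul_of_nonneg_right h10 hK0.le
      refine (Finset.sum_le_sum h7).trans ?_
      rw [Finset.sum_const, nsmul_eq_mul]
      refine mul_le_mul_of_nonneg_right ?_ (by positivity)
      rw [haa]
      exact_mod_cast Finset.card_filter_le _ _
    refine (norm_sum_le _ _).trans ((Finset.sum_le_sum h5).trans ?_)
    rw [Finset.sum_add_distrib, Finset.sum_const, nsmul_eq_mul, Nat.card_Ico]
    refine add_le_add ?_ le_rfl
    have h6 : ((P - 1 : ℕ) : ℝ) ≤ P := by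
      exact_mod_cast Nat.sub_le P 1
    calc ((P - 1 : ℕ) : ℝ) * (a * (4 * P * m * K)) ≤ P * (a * (4 * P * m * K)) :=
          mul_le_mul_of_nonneg_right h6 (by positivity)
      _ = _ := by ring
  have h5 : ∀ r, ‖S r‖ ^ 2 ≤ (x * K) * (x * ∑ p ∈ A with p + r ∈ A, ∑ p' ∈ A with p' + r ∈ A,
      ‖Gs K (α r p - α r p')‖) := by
    intro r
    have h6 := cs_dual (Icc 1 x ×ˢ range K) (A.filter fun p => p + r ∈ A) (W r)
      (fun i _ => hW1 r i) (fun p i => C r p i.1 * eR (i.2 * α r p))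
    rw [hcard] at h6
    refine h6.trans (mul_le_mul_of_nonneg_left ?_ (by positivity))
    rw [Finset.mul_sum]
    refine (norm_sum_le _ _).trans (Finset.sum_le_sum fun p _ => ?_)
    rw [Finset.mul_sum]
    refine (norm_sum_le _ _).trans (Finset.sum_le_sum fun p' _ => ?_)
    refine le_trans (le_of_eq ?_) (norm_sum_factor (fun n => C r p n * (starRingEnd ℂ) (C r p' n))
      (fun n => norm_mul_le_one (hC1 _ _ _) (norm_conj_le (hC1 _ _ _))) (α r p - α r p'))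
    congr 1
    refine Finset.sum_congr rfl fun i _ => ?_
    have h7 : eR (i.2 * (α r p - α r p')) =
        eR (i.2 * α r p) * (starRingEnd ℂ) (eR (i.2 * α r p')) := by
      rw [← eR_neg, ← eR_add]
      congr 1
      ring
    rw [h7, map_mul]
    ring
  set G : ℝ := ∑ r ∈ Ico 1 P, ∑ p ∈ A with p + r ∈ A, ∑ p' ∈ A with p' + r ∈ A,
      ‖Gs K (α r p - α r p')‖ with hG
  have h6 : (∑ r ∈ Ico 1 P, ‖S r‖) ^ 2 ≤ P * (x ^ 2 * K * G) := by
    refine (sq_sum_le_card_mul_sum_sq).trans ?_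
    rw [Nat.card_Ico]
    have h7 : ((P - 1 : ℕ) : ℝ) ≤ P := by
      exact_mod_cast Nat.sub_le P 1
    have h8 : ∑ r ∈ Ico 1 P, ‖S r‖ ^ 2 ≤ x ^ 2 * K * G := by
      refine (Finset.sum_le_sum fun r _ => h5 r).trans (le_of_eq ?_)
      rw [hG, Finset.mul_sum]
      refine Finset.sum_congr rfl fun r _ => by ring
    exact mul_le_mul h7 h8 (Finset.sum_nonneg fun _ _ => sq_nonneg _) hP0.le
  -- lower bound for the sum of the `S r`
  have ha2 : 4 * a ≤ δ ^ 2 * a ^ 2 := by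
    -- `δ^4 a^2 ≥ 32 P ≥ 16`
    have h7 : 16 ≤ (δ ^ 2 * a) ^ 2 := by
      have : (δ ^ 2 * a) ^ 2 = δ ^ 4 * a ^ 2 := by ring
      rw [this]
      linarith
    have h8 : 4 ≤ δ ^ 2 * a := by
      by_contra hcon
      push Not at hcon
      have : (δ ^ 2 * a) ^ 2 < 4 ^ 2 := pow_lt_pow_left₀ hcon (by positivity) (by norm_num)
      norm_num at this
      linarith
    nlinarith
  have h7 : δ ^ 2 * a ^ 2 * (x * K) ≤ 4 * ∑ r ∈ Ico 1 P, ‖S r‖ := by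
    have h8 : a * (x * K) ≤ δ ^ 2 * a ^ 2 * (x * K) / 4 := by
      have : 4 * a * (x * K) ≤ δ ^ 2 * a ^ 2 * (x * K) :=
        mul_le_mul_of_nonneg_right ha2 (by positivity)
      linarith
    have h9 : 2 * (4 * P ^ 2 * a * m * K) ≤ δ ^ 2 * a ^ 2 * (x * K) / 4 := by
      have h10 : 32 * (P : ℝ) ^ 2 * m * (a * K) ≤ δ ^ 2 * x * (a * K) :=
        mul_le_mul_of_nonneg_right hm (by positivity)
      have h11 : δ ^ 2 * x * (a * K) ≤ δ ^ 2 * x * (a * K) * a :=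
        le_mul_of_one_le_right (by positivity) ha1
      nlinarith
    linarith
  have h8 : δ ^ 4 * a ^ 4 * K ≤ 16 * P * G := by
    have h9 : (δ ^ 2 * a ^ 2 * (x * K)) ^ 2 ≤ (4 * ∑ r ∈ Ico 1 P, ‖S r‖) ^ 2 :=
      pow_le_pow_left₀ (by positivity) h7 2
    have h10 : (x ^ 2 * K : ℝ) * (δ ^ 4 * a ^ 4 * K) ≤ (x ^ 2 * K : ℝ) * (16 * P * G) := by
      calc (x ^ 2 * K : ℝ) * (δ ^ 4 * a ^ 4 * K) = (δ ^ 2 * a ^ 2 * (x * K)) ^ 2 := by ring
        _ ≤ (4 * ∑ r ∈ Ico 1 P, ‖S r‖) ^ 2 := h9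
        _ = 16 * (∑ r ∈ Ico 1 P, ‖S r‖) ^ 2 := by ring
        _ ≤ 16 * (P * (x ^ 2 * K * G)) := mul_le_mul_of_nonneg_left h6 (by norm_num)
        _ = _ := by ring
    exact le_of_mul_le_mul_left h10 (by positivity)
  -- number of pairs
  have h9 : ∑ r ∈ Ico 1 P, ∑ p ∈ A with p + r ∈ A, (1 : ℝ) ≤ a ^ 2 := by
    have h10 := reindex A hA (fun _ _ => (1 : ℝ))
    rw [← h10]
    calc ∑ p ∈ A, ∑ p' ∈ A with p < p', (1 : ℝ) ≤ ∑ p ∈ A, a := by
          refine Finset.sum_le_sum fun p _ => ?_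
          rw [Finset.sum_const, nsmul_eq_mul, mul_one, haa]
          exact_mod_cast Finset.card_filter_le _ _
      _ = a ^ 2 := by
          rw [Finset.sum_const, nsmul_eq_mul, ← haa]
          ring
  by_contra hcon
  push Not at hcon
  set c : ℝ := δ ^ 4 / (64 * (P : ℝ) ^ 4) with hc
  have hc0 : 0 ≤ c := by positivity
  have h10 : G ≤ a ^ 2 * K + P ^ 3 * (c * K) := by
    have h11 : ∀ r ∈ Ico 1 P, ∑ p ∈ A with p + r ∈ A, ∑ p' ∈ A with p' + r ∈ A,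
        ‖Gs K (α r p - α r p')‖ ≤ (∑ p ∈ A with p + r ∈ A, (1 : ℝ)) * K + P ^ 2 * (c * K) := by
      intro r hr
      have hr0 : 0 < r := (mem_Ico.mp hr).1
      have h12 : ∀ p ∈ A.filter (fun p => p + r ∈ A), ∑ p' ∈ A with p' + r ∈ A,
          ‖Gs K (α r p - α r p')‖ ≤ 1 * K + P * (c * K) := by
        intro p hp
        have hp' := Finset.mem_filter.mp hp
        have h13 : ∀ p' ∈ A.filter (fun p => p + r ∈ A), ‖Gs K (α r p - α r p')‖ ≤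
            (if p = p' then (K : ℝ) else 0) + c * K := by
          intro p' hp''
          have hp3 := Finset.mem_filter.mp hp''
          split_ifs with heq
          · have := norm_Gs_le K (α r p - α r p')
            have h14 : 0 ≤ c * K := by positivity
            linarith
          · rw [zero_add]
            exact (hcon r p p' hr0 heq hp'.1 hp'.2 hp3.1 hp3.2).le
        refine (Finset.sum_le_sum h13).trans ?_
        rw [Finset.sum_add_distrib, Finset.sum_ite_eq, Finset.sum_const, nsmul_eq_mul, one_mul]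
        refine add_le_add ?_ (mul_le_mul_of_nonneg_right ?_ (by positivity))
        · split_ifs
          exact le_rfl
        · refine le_trans ?_ haP
          rw [haa]
          exact_mod_cast Finset.card_filter_le _ _
      refine (Finset.sum_le_sum h12).trans ?_
      rw [Finset.sum_add_distrib, Finset.sum_mul]
      refine add_le_add le_rfl ?_
      rw [Finset.sum_const, nsmul_eq_mul]
      have h15 : ((A.filter fun p => p + r ∈ A).card : ℝ) ≤ P := by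
        refine le_trans ?_ haP
        rw [haa]
        exact_mod_cast Finset.card_filter_le _ _
      calc ((A.filter fun p => p + r ∈ A).card : ℝ) * (P * (c * K)) ≤ P * (P * (c * K)) :=
            mul_le_mul_of_nonneg_right h15 (by positivity)
        _ = _ := by ring
    rw [hG]
    refine (Finset.sum_le_sum h11).trans ?_
    rw [Finset.sum_add_distrib, ← Finset.sum_mul]
    refine add_le_add (mul_le_mul_of_nonneg_right h9 hK0.le) ?_
    rw [Finset.sum_const, nsmul_eq_mul, Nat.card_Ico]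
    have h7 : ((P - 1 : ℕ) : ℝ) ≤ P := by
      exact_mod_cast Nat.sub_le P 1
    calc ((P - 1 : ℕ) : ℝ) * (P ^ 2 * (c * K)) ≤ P * (P ^ 2 * (c * K)) :=
          mul_le_mul_of_nonneg_right h7 (by positivity)
      _ = _ := by ring
  have h11 : 16 * (P : ℝ) * (P ^ 3 * (c * K)) = δ ^ 4 * K / 4 := by
    rw [hc]
    field_simp
    ring
  have h12 : 16 * (P : ℝ) * G ≤ 16 * P * (a ^ 2 * K) + δ ^ 4 * K / 4 := by
    rw [← h11, ← mul_add]
    exact mul_le_mul_of_nonneg_left h10 (by positivity)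
  have h13 : 32 * (P : ℝ) * (a ^ 2 * K) ≤ δ ^ 4 * a ^ 4 * K := by
    have := mul_le_mul_of_nonneg_right ha (by positivity : (0 : ℝ) ≤ a ^ 2 * K)
    calc 32 * (P : ℝ) * (a ^ 2 * K) ≤ δ ^ 4 * a ^ 2 * (a ^ 2 * K) := this
      _ = _ := by ring
  have h14 : δ ^ 4 * K ≤ δ ^ 4 * a ^ 4 * K := by
    have h15 : 1 ≤ a ^ 4 := one_le_pow₀ ha1
    have h16 : δ ^ 4 * K * 1 ≤ δ ^ 4 * K * a ^ 4 := mul_le_mul_of_nonneg_left h15 (by positivity)
    linarith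
  have h15 : 0 < δ ^ 4 * K := by positivity
  linarith

theorem t1 : S_T1 := by
  intro δ δ₁ hδ hδ1 hd hd1
  refine ⟨128 / (δ ^ 4 * δ₁ ^ 4), by positivity, ?_⟩
  intro P R hP hR
  have hP0 : (0 : ℝ) < P := by exact_mod_cast hP
  have hP1 : (1 : ℝ) ≤ P := by exact_mod_cast hP
  have hR0 : (0 : ℝ) < R := by exact_mod_cast hR
  set B : ℝ := 512 * (P : ℝ) ^ 8 / δ ^ 4 + 36 * P ^ 3 * R / δ₁ ^ 2 + 32 * P ^ 2 / δ ^ 2 + 8 * P ^ 4
    with hB
  have hB0 : 0 < B := by positivity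
  refine ⟨⌈B⌉₊, Nat.ceil_pos.mpr hB0, ?_⟩
  intro f hf b x y K K₁ m A θ hK₁ hKK hKR hQm hA hAc h h'
  have hQ : B ≤ (⌈B⌉₊ : ℝ) := Nat.le_ceil B
  have hK : 0 < K := lt_of_lt_of_le hK₁ hKK
  have hK0 : (0 : ℝ) < K := by exact_mod_cast hK
  have hK10 : (0 : ℝ) < K₁ := by exact_mod_cast hK₁
  have hAne : A.Nonempty := by
    rw [Finset.nonempty_iff_ne_empty]
    intro h0
    rw [h0] at hAc
    simp only [Finset.card_empty, Nat.cast_zero] at hAc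
    have : 0 < 128 / (δ ^ 4 * δ₁ ^ 4) * P := by positivity
    norm_num at hAc
    linarith
  have ha0 : (0 : ℝ) < A.card := by exact_mod_cast Finset.card_pos.mpr hAne
  obtain ⟨q₀, hq₀⟩ := hAne
  have hx : 0 < x := by
    rcases Nat.eq_zero_or_pos x with h0 | h0
    · exfalso
      have h1 := h q₀ hq₀
      rw [h0] at h1
      simp [SS] at h1
      linarith
    · exact h0
  have hy : 0 < y := by
    rcases Nat.eq_zero_or_pos y with h0 | h0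
    · exfalso
      have h1 := h' q₀ hq₀
      rw [h0] at h1
      simp [SS] at h1
      linarith
    · exact h0
  have h1 := core1 hf hy hK₁ A (fun p => p * θ p) hd.le h'
  -- choice of `κ`
  obtain ⟨p₀, hp₀, h2⟩ : ∃ p₀ ∈ A, δ₁ ^ 2 * A.card * K₁ ≤
      ∑ p' ∈ A, ‖Gs K₁ (p₀ * θ p₀ - p' * θ p')‖ := by
    by_contra hcon
    push Not at hcon
    have h3 := Finset.sum_lt_sum_of_nonempty ⟨q₀, hq₀⟩ hcon
    rw [Finset.sum_const, nsmul_eq_mul] at h3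
    have h4 : (A.card : ℝ) * (δ₁ ^ 2 * A.card * K₁) = δ₁ ^ 2 * (A.card : ℝ) ^ 2 * K₁ := by ring
    rw [h4] at h3
    exact absurd h1 (not_le.mpr h3)
  set κ : ℝ := p₀ * θ p₀ with hκ
  set A' : Finset ℕ := A.filter fun p => δ₁ ^ 2 / 2 * K₁ ≤ ‖Gs K₁ (κ - p * θ p)‖ with hA'
  have h3 : δ₁ ^ 2 * A.card ≤ 2 * A'.card := by
    have h4 : ∑ p' ∈ A, ‖Gs K₁ (κ - p' * θ p')‖ ≤ A'.card * K₁ + A.card * (δ₁ ^ 2 / 2 * K₁) := by
      have h5 : ∀ p' ∈ A, ‖Gs K₁ (κ - p' * θ p')‖ ≤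
          (if δ₁ ^ 2 / 2 * K₁ ≤ ‖Gs K₁ (κ - p' * θ p')‖ then (K₁ : ℝ) else 0) +
            δ₁ ^ 2 / 2 * K₁ := by
        intro p' _
        split_ifs with h6
        · have := norm_Gs_le K₁ (κ - p' * θ p')
          have h7 : 0 ≤ δ₁ ^ 2 / 2 * K₁ := by positivity
          linarith
        · push Not at h6
          linarith
      refine (Finset.sum_le_sum h5).trans ?_
      rw [Finset.sum_add_distrib, ← Finset.sum_filter, Finset.sum_const, nsmul_eq_mul,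
        Finset.sum_const, nsmul_eq_mul]
    have h5 := h2.trans h4
    have h6 : K₁ * (δ₁ ^ 2 * A.card : ℝ) ≤ K₁ * (2 * A'.card) := by
      nlinarith
    exact le_of_mul_le_mul_left h6 hK10
  have hA'A : ∀ p ∈ A', p ∈ A := fun p hp => (Finset.mem_filter.mp hp).1
  have ha'0 : (0 : ℝ) < A'.card := by
    have : 0 < δ₁ ^ 2 * (A.card : ℝ) := by positivity
    linarith
  have hA'ne : A'.Nonempty := by
    rw [← Finset.card_pos]
    exact_mod_cast ha'0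
  have h4 : 32 * (P : ℝ) ≤ δ ^ 4 * (A'.card : ℝ) ^ 2 := by
    have h5 : (δ₁ ^ 2 * (A.card : ℝ)) ^ 2 ≤ (2 * (A'.card : ℝ)) ^ 2 :=
      pow_le_pow_left₀ (by positivity) h3 2
    have h6 : δ₁ ^ 4 * (128 / (δ ^ 4 * δ₁ ^ 4) * P) ≤ δ₁ ^ 4 * (A.card : ℝ) ^ 2 :=
      mul_le_mul_of_nonneg_left hAc (by positivity)
    have h7 : δ₁ ^ 4 * (128 / (δ ^ 4 * δ₁ ^ 4) * P) = 128 * P / δ ^ 4 := by
      field_simp
    rw [h7, div_le_iff₀ (by positivity)] at h6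
    have h8 : (δ₁ ^ 2 * (A.card : ℝ)) ^ 2 * δ ^ 4 ≤ (2 * (A'.card : ℝ)) ^ 2 * δ ^ 4 :=
      mul_le_mul_of_nonneg_right h5 (by positivity)
    nlinarith
  have hm : 32 * (P : ℝ) ^ 2 * m ≤ δ ^ 2 * x := by
    have h5 : (⌈B⌉₊ : ℝ) * m ≤ x := by exact_mod_cast hQm
    have h6 : 32 * (P : ℝ) ^ 2 / δ ^ 2 ≤ ⌈B⌉₊ := by
      refine le_trans ?_ hQ
      rw [hB]
      have h7 : 0 ≤ 512 * (P : ℝ) ^ 8 / δ ^ 4 := by positivity
      have h8 : 0 ≤ 36 * (P : ℝ) ^ 3 * R / δ₁ ^ 2 := by positivity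
      have h9 : 0 ≤ 8 * (P : ℝ) ^ 4 := by positivity
      linarith
    have h7 : 32 * (P : ℝ) ^ 2 / δ ^ 2 * m ≤ x :=
      (mul_le_mul_of_nonneg_right h6 (by positivity)).trans h5
    have h8 : 32 * (P : ℝ) ^ 2 * m = δ ^ 2 * (32 * (P : ℝ) ^ 2 / δ ^ 2 * m) := by
      field_simp
    rw [h8]
    exact mul_le_mul_of_nonneg_left h7 (by positivity)
  obtain ⟨r, p, p', hr, hne, hp1, hp2, hp3, hp4, h5⟩ := core2 hf hx hK hP A'
    (fun p hp => hA p (hA'A p hp)) hA'ne θ hδ hδ1 (fun p hp => h p (hA'A p hp)) hm h4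
  obtain ⟨J, hJ⟩ := near_int (by positivity) hK h5
  have h6 : ∀ p ∈ A', ∃ j : ℤ, |κ - p * θ p - j| ≤ R / (δ₁ ^ 2 * K) := by
    intro p hp
    obtain ⟨j, hj⟩ := near_int (by positivity) hK₁ (Finset.mem_filter.mp hp).2
    refine ⟨j, hj.trans ?_⟩
    rw [div_le_div_iff₀ (by positivity) (by positivity)]
    have h7 : (K : ℝ) ≤ R * K₁ := by exact_mod_cast hKR
    have h8 : δ₁ ^ 2 * (K : ℝ) ≤ δ₁ ^ 2 * (R * K₁) := mul_le_mul_of_nonneg_left h7 (by positivity)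
    linarith
  obtain ⟨j1, hj1⟩ := h6 p hp1
  obtain ⟨j2, hj2⟩ := h6 _ hp2
  obtain ⟨j3, hj3⟩ := h6 p' hp3
  obtain ⟨j4, hj4⟩ := h6 _ hp4
  have hb1 := hA p (hA'A _ hp1)
  have hb2 := hA _ (hA'A _ hp2)
  have hb3 := hA p' (hA'A _ hp3)
  have hb4 := hA _ (hA'A _ hp4)
  refine ⟨p, hA'A _ hp1, ?_⟩
  have hrP : r ≤ P := by omega
  obtain ⟨P1, hP1'⟩ : ∃ P1 : ℝ, P1 = (p : ℝ) := ⟨_, rfl⟩
  obtain ⟨P3, hP3'⟩ : ∃ P3 : ℝ, P3 = (p' : ℝ) := ⟨_, rfl⟩
  obtain ⟨r', hr'⟩ : ∃ r' : ℝ, r' = (r : ℝ) := ⟨_, rfl⟩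
  have hr0 : 0 ≤ r' := by rw [hr']; positivity
  have hr1 : r' ≤ P := by rw [hr']; exact_mod_cast hrP
  have c1 : 0 ≤ P1 := by rw [hP1']; positivity
  have c3 : 0 ≤ P3 := by rw [hP3']; positivity
  have c2 : 0 ≤ P1 + r' := by positivity
  have c4 : 0 ≤ P3 + r' := by positivity
  have d1 : P1 ≤ 2 * P := by rw [hP1']; exact_mod_cast hb1.2.le
  have d2 : P1 + r' ≤ 2 * P := by rw [hP1', hr']; exact_mod_cast hb2.2.le
  have d3 : P3 ≤ 2 * P := by rw [hP3']; exact_mod_cast hb3.2.le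
  have d4 : P3 + r' ≤ 2 * P := by rw [hP3', hr']; exact_mod_cast hb4.2.le
  push_cast at hj1 hj2 hj3 hj4
  rw [← hP1'] at hj1 hj2
  rw [← hP3'] at hj3 hj4
  rw [← hr'] at hj2 hj4
  obtain ⟨e, he⟩ : ∃ e : ℝ, e = R / (δ₁ ^ 2 * K) := ⟨_, rfl⟩
  rw [← he] at hj1 hj2 hj3 hj4
  have he0 : 0 ≤ e := by rw [he]; positivity
  obtain ⟨t, ht⟩ : ∃ t : ℝ, t = 1 / (2 * (δ ^ 4 / (64 * (P : ℝ) ^ 4)) * K) := ⟨_, rfl⟩
  rw [← ht] at hJ
  have ht0 : 0 ≤ t := by rw [ht]; positivity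
  obtain ⟨θ1, hθ1⟩ : ∃ θ1 : ℝ, θ1 = θ p := ⟨_, rfl⟩
  obtain ⟨θ2, hθ2⟩ : ∃ θ2 : ℝ, θ2 = θ (p + r) := ⟨_, rfl⟩
  obtain ⟨θ3, hθ3⟩ : ∃ θ3 : ℝ, θ3 = θ p' := ⟨_, rfl⟩
  obtain ⟨θ4, hθ4⟩ : ∃ θ4 : ℝ, θ4 = θ (p' + r) := ⟨_, rfl⟩
  rw [← hθ1, ← hθ2, ← hθ3, ← hθ4] at hJ
  rw [← hθ1] at hj1
  rw [← hθ2] at hj2
  rw [← hθ3] at hj3
  rw [← hθ4] at hj4
  obtain ⟨N, hN⟩ : ∃ N : ℤ, N = r * (p' * (p' + r) - p * (p + r)) := ⟨_, rfl⟩
  have hNR : (N : ℝ) = r' * (P3 * (P3 + r') - P1 * (P1 + r')) := by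
    rw [hN, hP1', hP3', hr']
    push_cast
    ring
  have hN0 : N ≠ 0 := by
    intro h0
    rw [hN] at h0
    have hrz : (r : ℤ) ≠ 0 := by exact_mod_cast hr.ne'
    have h7 : ((p' : ℤ) * (p' + r) - p * (p + r)) = ((p' : ℤ) - p) * (p' + p + r) := by ring
    rw [h7] at h0
    rcases mul_eq_zero.mp h0 with h8 | h8
    · exact hrz h8
    · rcases mul_eq_zero.mp h8 with h9 | h9
      · apply hne
        omega
      · omega
  have hNb : |(N : ℝ)| ≤ 4 * P ^ 3 := by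
    rw [hNR, abs_mul, abs_of_nonneg hr0]
    have h7 : |P3 * (P3 + r') - P1 * (P1 + r')| ≤ 4 * P ^ 2 := by
      have h8 : P3 * (P3 + r') ≤ (2 * P) * (2 * P) := mul_le_mul d3 d4 c4 (by positivity)
      have h9 : P1 * (P1 + r') ≤ (2 * P) * (2 * P) := mul_le_mul d1 d2 c2 (by positivity)
      have h10 : 0 ≤ P3 * (P3 + r') := mul_nonneg c3 c4
      have h11 : 0 ≤ P1 * (P1 + r') := mul_nonneg c1 c2
      rw [abs_le]
      constructor <;> nlinarith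
    calc r' * |P3 * (P3 + r') - P1 * (P1 + r')| ≤ P * (4 * P ^ 2) :=
          mul_le_mul hr1 h7 (abs_nonneg _) hP0.le
      _ = _ := by ring
  obtain ⟨L, hL⟩ : ∃ L : ℤ, |(N : ℝ) * (P1 * θ1) - L| ≤ 16 * P ^ 4 * t + 36 * P ^ 3 * e := by
    refine ⟨p * (p + r) * p' * (p' + r) * J + ((p + r) * p' * (p' + r) * j1 -
      p * p' * (p' + r) * j2 - p * (p + r) * (p' + r) * j3 + p * (p + r) * p' * j4) - N * j1, ?_⟩
    have h7 : (N : ℝ) * (P1 * θ1) - ((p * (p + r) * p' * (p' + r) * J +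
        ((p + r) * p' * (p' + r) * j1 -
      p * p' * (p' + r) * j2 - p * (p + r) * (p' + r) * j3 + p * (p + r) * p' * j4) - N * j1 : ℤ) : ℝ) =
        P1 * (P1 + r') * P3 * (P3 + r') * (θ1 - θ2 - (θ3 - θ4) - J) +
        ((P1 + r') * P3 * (P3 + r') * (κ - P1 * θ1 - j1)
          - P1 * P3 * (P3 + r') * (κ - (P1 + r') * θ2 - j2)
          - P1 * (P1 + r') * (P3 + r') * (κ - P3 * θ3 - j3)
          + P1 * (P1 + r') * P3 * (κ - (P3 + r') * θ4 - j4)) - N * (κ - P1 * θ1 - j1) := by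
      push_cast
      rw [hNR, ← hP1', ← hP3', ← hr']
      ring
    rw [h7]
    have g1 : |P1 * (P1 + r') * P3 * (P3 + r') * (θ1 - θ2 - (θ3 - θ4) - J)| ≤ 16 * P ^ 4 * t := by
      rw [abs_mul, abs_of_nonneg (by positivity : 0 ≤ P1 * (P1 + r') * P3 * (P3 + r'))]
      refine mul_le_mul ?_ hJ (abs_nonneg _) (by positivity)
      calc P1 * (P1 + r') * P3 * (P3 + r') ≤ (2 * P) ^ 3 * (2 * P) :=
            mul_le_mul (prod3 c1 c2 c3 d1 d2 d3) d4 c4 (by positivity)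
        _ = _ := by ring
    have g2 : |(P1 + r') * P3 * (P3 + r') * (κ - P1 * θ1 - j1)| ≤ (2 * P) ^ 3 * e := by
      rw [abs_mul, abs_of_nonneg (by positivity : 0 ≤ (P1 + r') * P3 * (P3 + r'))]
      exact mul_le_mul (prod3 c2 c3 c4 d2 d3 d4) hj1 (abs_nonneg _) (by positivity)
    have g3 : |P1 * P3 * (P3 + r') * (κ - (P1 + r') * θ2 - j2)| ≤ (2 * P) ^ 3 * e := by
      rw [abs_mul, abs_of_nonneg (by positivity : 0 ≤ P1 * P3 * (P3 + r'))]
      exact mul_le_mul (prod3 c1 c3 c4 d1 d3 d4) hj2 (abs_nonneg _) (by positivity)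
    have g4 : |P1 * (P1 + r') * (P3 + r') * (κ - P3 * θ3 - j3)| ≤ (2 * P) ^ 3 * e := by
      rw [abs_mul, abs_of_nonneg (by positivity : 0 ≤ P1 * (P1 + r') * (P3 + r'))]
      exact mul_le_mul (prod3 c1 c2 c4 d1 d2 d4) hj3 (abs_nonneg _) (by positivity)
    have g5 : |P1 * (P1 + r') * P3 * (κ - (P3 + r') * θ4 - j4)| ≤ (2 * P) ^ 3 * e := by
      rw [abs_mul, abs_of_nonneg (by positivity : 0 ≤ P1 * (P1 + r') * P3)]
      exact mul_le_mul (prod3 c1 c2 c3 d1 d2 d3) hj4 (abs_nonneg _) (by positivity)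
    have g6 : |(N : ℝ) * (κ - P1 * θ1 - j1)| ≤ 4 * P ^ 3 * e := by
      rw [abs_mul]
      exact mul_le_mul hNb hj1 (abs_nonneg _) (by positivity)
    have h8 : 16 * (P : ℝ) ^ 4 * t + 36 * P ^ 3 * e =
      16 * (P : ℝ) ^ 4 * t + ((2 * P) ^ 3 * e + (2 * P) ^ 3 * e + (2 * P) ^ 3 * e
        + (2 * P) ^ 3 * e) + 4 * P ^ 3 * e := by ring
    rw [h8]
    rw [abs_le] at g1 g2 g3 g4 g5 g6 ⊢
    constructor <;> linarith [g1.1, g1.2, g2.1, g2.2, g3.1, g3.2, g4.1, g4.2, g5.1, g5.2, g6.1, g6.2]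
  have hbd : 16 * (P : ℝ) ^ 4 * t + 36 * P ^ 3 * e ≤ (⌈B⌉₊ : ℝ) / K := by
    rw [le_div_iff₀ hK0]
    refine le_trans ?_ hQ
    have h7 : (16 * (P : ℝ) ^ 4 * t + 36 * P ^ 3 * e) * K =
        512 * (P : ℝ) ^ 8 / δ ^ 4 + 36 * P ^ 3 * R / δ₁ ^ 2 := by
      rw [ht, he]
      field_simp
      ring
    rw [h7, hB]
    have h8 : 0 ≤ 32 * (P : ℝ) ^ 2 / δ ^ 2 := by positivity
    have h9 : 0 ≤ 8 * (P : ℝ) ^ 4 := by positivity
    linarith
  have hp0 : 0 < p := by omega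
  refine ⟨N.natAbs * p, Nat.mul_pos (Int.natAbs_pos.mpr hN0) hp0, ?_, ?_⟩
  · have h7 : ((N.natAbs * p : ℕ) : ℝ) ≤ (⌈B⌉₊ : ℝ) := by
      refine le_trans ?_ hQ
      push_cast
      rw [Nat.cast_natAbs, Int.cast_abs, ← hP1']
      have h8 : |(N : ℝ)| * P1 ≤ (4 * P ^ 3) * (2 * P) :=
        mul_le_mul hNb d1 c1 (by positivity)
      refine h8.trans ?_
      rw [hB]
      have h9 : 0 ≤ 512 * (P : ℝ) ^ 8 / δ ^ 4 := by positivity
      have h10 : 0 ≤ 36 * (P : ℝ) ^ 3 * R / δ₁ ^ 2 := by positivity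
      have h11 : 0 ≤ 32 * (P : ℝ) ^ 2 / δ ^ 2 := by positivity
      have h12 : (4 * (P : ℝ) ^ 3) * (2 * P) = 8 * P ^ 4 := by ring
      rw [h12]
      linarith
    exact_mod_cast h7
  · push_cast
    rw [Nat.cast_natAbs, Int.cast_abs, ← hP1', ← hθ1]
    rcases abs_choice (N : ℝ) with h7 | h7
    · refine ⟨L, ?_⟩
      rw [h7, mul_assoc]
      exact hL.trans hbd
    · refine ⟨-L, ?_⟩
      rw [h7]
      have h8 : -(N : ℝ) * P1 * θ1 - ((-L : ℤ) : ℝ) = -((N : ℝ) * (P1 * θ1) - L) := by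
        push_cast
        ring
      rw [h8, abs_neg]
      exact hL.trans hbd

end Pool.Agent.N123.A3
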